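import Pool.Agent.helper53.SP4.Spec

/-!
# Row S4O: different absolute flags are opposite
-/

set_option autoImplicit false

namespace Pool.Agent.SP4

open Pool.Agent.GS

section
variable {F : Type} [Field F]

lemma S4O_addl (u v w : Fin 4 → F) : B (u + v) w = B u w + B v w := by
  simp only [B, Pi.add_apply]; ring
lemma S4O_addr (u v w : Fin 4 → F) : B u (v + w) = B u v + B u w := by
  simp only [B, Pi.add_apply]; ring
lemma S4O_sl (c : F) (u w : Fin 4 → F) : B (c • u) w = c * B u w := by
  simp only [B, Pi.smul_apply, smul_eq_mul]; ring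
lemma S4O_sr (c : F) (u w : Fin 4 → F) : B u (c • w) = c * B u w := by
  simp only [B, Pi.smul_apply, smul_eq_mul]; ring

lemma S4O_eq {a b c d : Fin 4 → F} (h1 : LinearIndependent F ![a, b]) (h2 : LinearIndependent F ![c, d])
    (hc : c ∈ Sn a b) (hd : d ∈ Sn a b) : Sn c d = Sn a b := by
  have r : ∀ x y : Fin 4 → F, Submodule.span F (Set.range ![x, y]) = Sn x y := by
    intro x y
    unfold Sn
    rw [Matrix.range_cons, Matrix.range_cons, Matrix.range_empty, Set.union_empty]
    rfl
  apply Submodule.eq_of_le_of_finrank_eq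
  · unfold Sn
    rw [Submodule.span_le]
    rintro y (rfl | hy)
    · exact hc
    · rw [Set.mem_singleton_iff.1 hy]; exact hd
  · rw [← r, ← r, finrank_span_eq_card h1, finrank_span_eq_card h2]

lemma S4O_w {u : Fin 4 → F} (hnd : ∀ v : Fin 4 → F, (∀ w, B v w = 0) → v = 0) (hu : u ≠ 0) :
    ∃ w, B u w = 1 := by
  by_contra hne
  apply hu
  apply hnd
  intro w
  by_contra hw
  apply hne
  refine ⟨(B u w)⁻¹ • w, ?_⟩
  rw [S4O_sr]
  exact inv_mul_cancel₀ hw

end

/-- `S4O` -/
theorem S4O (hS4B : S4B_stmt) (hS4X : S4X_stmt) (hS4M : S4M_stmt) : S4O_stmt := by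
  intro F _ _ _ x hSw hxx u1 b1 u2 b2 hF1 hF2 hne
  obtain ⟨hself, hsymm, hnd, -, hexT, -, -, -, huniq, -, -, hperp⟩ := hS4B F
  obtain ⟨hX, -⟩ := hS4X F x hSw
  obtain ⟨⟨hl1, hz1⟩, hA1⟩ := hF1
  obtain ⟨⟨hl2, hz2⟩, hA2⟩ := hF2
  obtain ⟨t1, ht1, -⟩ := hexT u1
  obtain ⟨t2, ht2, -⟩ := hexT u2
  have hu1 : u1 ≠ 0 := by
    have := hl1.ne_zero 0
    exact this
  have hu2 : u2 ≠ 0 := by
    have := hl2.ne_zero 0
    exact this
  have hs1 := hA1 t1 ht1
  have hs2 := hA2 t2 ht2
  have hxi : ∀ t, x (x t) = t := by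
    intro t
    have h1 : (x * x) t = (1 : MulAut (SG F)) t := by rw [hxx]
    exact h1
  have hu1m : u1 ∈ Sn u1 b1 := Submodule.subset_span (Set.mem_insert _ _)
  have hu2m : u2 ∈ Sn u2 b2 := Submodule.subset_span (Set.mem_insert _ _)
  have hM := hS4M F u1 u2 u1 b1 u2 b2 t1 t2 (x t1) (x t2) hu1 hu2 ⟨hl1, hz1⟩ ⟨hl2, hz2⟩ ht1 ht2 hs1 hs2
  have hM' := hS4M F u2 u1 u1 b1 u2 b2 t2 t1 (x t1) (x t2) hu2 hu1 ⟨hl1, hz1⟩ ⟨hl2, hz2⟩ ht2 ht1 hs1 hs2
  have hM'' := hS4M F u1 u2 u2 b2 u1 b1 t1 t2 (x t2) (x t1) hu1 hu2 ⟨hl2, hz2⟩ ⟨hl1, hz1⟩ ht1 ht2 hs2 hs1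
  -- commuting is transported by `x`
  have hcs : t1 * t2 = t2 * t1 ↔ x t1 * x t2 = x t2 * x t1 := by
    rw [← map_mul, ← map_mul]
    exact ⟨fun h => by rw [h], fun h => x.injective h⟩
  have key : B u1 u2 ≠ 0 := by
    intro hB
    obtain ⟨m, hm0, hm1, hm2⟩ := hM.2.2.1 (hcs.1 (hM.1.2 hB))
    by_cases h21 : u2 ∈ Sn u1 b1
    · -- `u1` is in the second plane
      have h12 : u1 ∈ Sn u2 b2 := by
        apply hM''.2.1.1
        have h3 := hM'.2.1.2 h21
        have h4 : x (t2 * x t1) = x (x t1 * t2) := by rw [h3]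
        rw [map_mul, map_mul, hxi] at h4
        exact h4.symm
      by_cases hli : LinearIndependent F ![u1, u2]
      · exact hne ((S4O_eq hl1 hli hu1m h21).symm.trans (S4O_eq hl2 hli h12 hu2m))
      · -- `u2` is a multiple of `u1`
        have hc : ∃ c : F, u2 = c • u1 := by
          rw [LinearIndependent.pair_iff] at hli
          push Not at hli
          obtain ⟨s, t, hst, hs⟩ := hli
          have ht : t ≠ 0 := by
            intro ht
            rw [ht, zero_smul, add_zero] at hst
            rcases smul_eq_zero.1 hst with h | h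
            · exact hs h ht
            · exact hu1 h
          refine ⟨-(t⁻¹ * s), ?_⟩
          have h5 : t • u2 = -(s • u1) := by
            rw [eq_neg_iff_add_eq_zero, add_comm]; exact hst
          calc u2 = t⁻¹ • (t • u2) := by rw [smul_smul, inv_mul_cancel₀ ht, one_smul]
            _ = _ := by rw [h5, smul_neg, smul_smul, neg_smul]
        obtain ⟨c, rfl⟩ := hc
        have hc0 : c ≠ 0 := by
          rintro rfl
          exact hu2 (zero_smul _ _)
        obtain ⟨w, hw⟩ := S4O_w hnd hu1
        have hz2' : B u1 b2 = 0 := by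
          rw [S4O_sl] at hz2
          exact (mul_eq_zero.1 hz2).resolve_left hc0
        -- it is enough to show `b2 ∈ Sn u1 b1`
        suffices hb : b2 ∈ Sn u1 b1 from hne (S4O_eq hl1 hl2 h21 hb).symm
        by_cases hc1 : c = 1
        · subst hc1
          rw [one_smul] at ht2 hs2
          have h6 : t1 = t2 := (huniq u1 u1 t1 t2).1 ht1 ht2
          subst h6
          have h7 := (hs1 w).symm.trans (hs2 w)
          rw [hw, one_smul, one_smul] at h7
          have h8 := add_left_cancel h7
          have h9 : b2 = b1 + (B b1 w - B b2 w) • u1 := by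
            rw [sub_smul]
            calc b2 = (B b2 w • u1 + b2) - B b2 w • u1 := by abel
              _ = _ := by rw [← h8]; abel
          rw [h9]
          exact Submodule.add_mem _ (Submodule.subset_span (Set.mem_insert_of_mem _ rfl))
            (Submodule.smul_mem _ _ hu1m)
        · apply hperp u1 b1 b2 ⟨hl1, hz1⟩ hz2'
          -- the product
          have hT : IsT ((1 + c) • u1) (t1 * t2) := by
            intro y
            have h10 : ((t1 * t2 : SG F) : (Fin 4 → F) ≃ₗ[F] (Fin 4 → F)) y =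
              (t1 : (Fin 4 → F) ≃ₗ[F] (Fin 4 → F)) ((t2 : (Fin 4 → F) ≃ₗ[F] (Fin 4 → F)) y) := rfl
            rw [h10, ht2 y, ht1]
            simp only [S4O_addr, S4O_sl, S4O_sr, hself, smul_smul, mul_zero, add_zero]
            rw [add_assoc, ← add_smul]
            congr 2
            have h11 : c + c = 0 := CharTwo.add_self_eq_zero c
            linear_combination (-B u1 y) * h11
          have h1c : (1 + c) • u1 ≠ 0 := by
            intro h12
            rcases smul_eq_zero.1 h12 with h13 | h13
            · apply hc1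
              have h14 : (1 : F) + 1 = 0 := CharTwo.add_self_eq_zero 1
              linear_combination h13 - h14
            · exact hu1 h13
          obtain ⟨a, b, -, hab⟩ := hX _ _ h1c hT
          have h15 := hab w
          have h16 : ((x (t1 * t2) : SG F) : (Fin 4 → F) ≃ₗ[F] (Fin 4 → F)) w =
              ((x t1 : SG F) : (Fin 4 → F) ≃ₗ[F] (Fin 4 → F)) (((x t2 : SG F) : (Fin 4 → F) ≃ₗ[F] (Fin 4 → F)) w) := by
            rw [map_mul]; rfl
          rw [h16, hs2 w, hs1] at h15
          have h17 := congrArg (B w) h15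
          simp only [S4O_addr, S4O_addl, S4O_sl, S4O_sr, hself, hw, hsymm w u1, hsymm w b1, hsymm w b2,
            hsymm w a, hsymm w b, hsymm b1 u1, hz1, hz2', mul_zero, zero_mul, mul_one, one_mul, add_zero, zero_add] at h17
          have h18 : B b1 w + B b1 w = 0 := CharTwo.add_self_eq_zero _
          have h19 : B b2 w + B b2 w = 0 := CharTwo.add_self_eq_zero _
          have h20 : B a w * B b w + B a w * B b w = 0 := CharTwo.add_self_eq_zero _
          have h21' : c * B b1 b2 = 0 := by
            linear_combination h17 - h18 - c * h19 + h20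
          exact (mul_eq_zero.1 h21').resolve_left hc0
    · -- `u2` is not in the first plane
      have hli : LinearIndependent F ![u1, u2] := by
        rw [LinearIndependent.pair_iff]
        intro s t hst
        have ht : t = 0 := by
          by_contra ht
          apply h21
          have h5 : t • u2 = -(s • u1) := by
            rw [eq_neg_iff_add_eq_zero, add_comm]; exact hst
          have h6 : u2 = t⁻¹ • (t • u2) := by rw [smul_smul, inv_mul_cancel₀ ht, one_smul]
          rw [h6, h5]
          exact Submodule.smul_mem _ _ (Submodule.neg_mem _ (Submodule.smul_mem _ _ hu1m))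
        rw [ht, zero_smul, add_zero] at hst
        exact ⟨(smul_eq_zero.1 hst).resolve_right hu1, ht⟩
      have hort : ∀ a b v : Fin 4 → F, B a b = 0 → v ∈ Sn a b → B a v = 0 := by
        intro a b v hab hv
        obtain ⟨p, q, rfl⟩ := Submodule.mem_span_pair.1 hv
        rw [S4O_addr, S4O_sr, S4O_sr, hself, hab, mul_zero, mul_zero, add_zero]
      have hm12 := hperp u1 u2 m ⟨hli, hB⟩ (hort _ _ _ hz1 hm1) (hort _ _ _ hz2 hm2)
      obtain ⟨p, q, hpq⟩ := Submodule.mem_span_pair.1 hm12
      by_cases hq : q = 0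
      · rw [hq, zero_smul, add_zero] at hpq
        have hp : p ≠ 0 := by
          rintro rfl
          exact hm0 (by rw [← hpq, zero_smul])
        have h12 : u1 ∈ Sn u2 b2 := by
          have h6 : u1 = p⁻¹ • (p • u1) := by rw [smul_smul, inv_mul_cancel₀ hp, one_smul]
          rw [h6, hpq]
          exact Submodule.smul_mem _ _ hm2
        -- then `u2` is in the first plane
        apply h21
        apply hM'.2.1.1
        have h3 := hM''.2.1.2 h12
        have h4 : x (t1 * x t2) = x (x t2 * t1) := by rw [h3]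
        rw [map_mul, map_mul, hxi] at h4
        exact h4.symm
      · apply h21
        have h5 : q • u2 = m - p • u1 := by rw [← hpq]; abel
        have h6 : u2 = q⁻¹ • (q • u2) := by rw [smul_smul, inv_mul_cancel₀ hq, one_smul]
        rw [h6, h5]
        exact Submodule.smul_mem _ _ (Submodule.sub_mem _ hm1 (Submodule.smul_mem _ _ hu1m))
  refine ⟨key, fun m hm1 hm2 => ?_⟩
  by_contra hm0
  exact key (hM.1.1 (hcs.2 (hM.2.2.2 ⟨m, hm0, hm1, hm2⟩)))

end Pool.Agent.SP4
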